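import Mathlib
import Pool.Agent.TH278.DX.Defs
import Pool.Agent.TH360.J4453

/-!
# Induced representations keep invariant operators (job 4661)
-/

set_option autoImplicit false

noncomputable section

namespace Pool.Agent.TH695.J4661

open Pool.Agent.TH278.DX Pool.Agent.TH360.J4453
open scoped ENNReal

variable {I H : Type} [NormedAddCommGroup H] [InnerProductSpace ℂ H]

/-- the diagonal operator -/
def dg (I : Type) (A : H →L[ℂ] H) : L2 I H →L[ℂ] L2 I H :=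
  wop id Function.injective_id (fun _ => A) ‖A‖ (fun _ => le_rfl) (norm_nonneg _)

lemma dg_apply (A : H →L[ℂ] H) (f : L2 I H) (q : I) : dg I A f q = A (f q) := rfl

lemma hs_dg (A : H →L[ℂ] H) (f g : L2 I H) :
    HasSum (fun q => inner ℂ (A (f q)) (g q)) (inner ℂ (dg I A f) g) :=
  lp.hasSum_inner (dg I A f) g

lemma hs_norm (f : L2 I H) : HasSum (fun q => ‖f q‖ ^ 2) (‖f‖ ^ 2) := by
  have h1 := Complex.hasSum_re (lp.hasSum_inner f f)
  have h2 : (fun q => (inner ℂ (f q) (f q)).re) = fun q => ‖f q‖ ^ 2 := by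
    funext q
    exact inner_self_eq_norm_sq (𝕜 := ℂ) (f q)
  have h3 : (inner ℂ f f : ℂ).re = ‖f‖ ^ 2 := inner_self_eq_norm_sq (𝕜 := ℂ) f
  rw [h2, h3] at h1
  exact h1

lemma inv_ind {Γ : Type} [Group Γ] (Λ : Subgroup Γ) (π : Λ →* (H →L[ℂ] H)ˣ) (c : ℝ)
    (hc : Bdd π c) (hc0 : 0 ≤ c) (m M : ℝ) (h : Inv π m M) :
    Inv (rho Λ π c hc hc0).toHomUnits m M := by
  obtain ⟨A, h1, h2, h3, h4⟩ := h
  refine ⟨dg _ A, ?_, ?_, ?_, ?_⟩
  · intro f g
    refine (hs_dg A f g).unique ?_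
    have h5 := lp.hasSum_inner (𝕜 := ℂ) f (dg (Γ ⧸ Λ) A g)
    have h6 : (fun q => inner ℂ (A (f q)) (g q)) =
        fun q => inner ℂ (f q) (dg (Γ ⧸ Λ) A g q) := funext fun q => h1 _ _
    rw [h6]
    exact h5
  · intro f
    refine hasSum_le ?_ ((hs_norm f).mul_left m) (Complex.hasSum_re (hs_dg A f f))
    intro q
    exact h2 _
  · intro f
    refine hasSum_le ?_ (Complex.hasSum_re (hs_dg A f f)) ((hs_norm f).mul_left M)
    intro q
    exact h3 _
  · intro g f f'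
    have e1 := hs_dg A (rho Λ π c hc hc0 g f) (rho Λ π c hc hc0 g f')
    have e2 : (fun q => inner ℂ (A (rho Λ π c hc hc0 g f q)) (rho Λ π c hc hc0 g f' q)) =
        (fun q => inner ℂ (A (f q)) (f' q)) ∘ (MulAction.toPerm (g⁻¹) : Equiv.Perm (Γ ⧸ Λ)) := by
      funext q
      rw [rho_apply, rho_apply, h4]
      rfl
    rw [e2, Equiv.hasSum_iff] at e1
    exact e1.unique (hs_dg A f f')

/-- **Induced representation, keeping invariant operators.** -/
theorem induce2 {Γ H : Type} [Group Γ] (Λ : Subgroup Γ) [NormedAddCommGroup H]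
    [InnerProductSpace ℂ H] [CompleteSpace H] (π : Λ →* (H →L[ℂ] H)ˣ) (c : ℝ) (hc : Bdd π c) :
    ∃ (H' : Type) (_ : NormedAddCommGroup H') (_ : InnerProductSpace ℂ H') (_ : CompleteSpace H')
      (π' : Γ →* (H' →L[ℂ] H')ˣ) (J : H →ₗᵢ[ℂ] H'), Bdd π' c ∧
      (∀ (l : Λ) (x : H), ((π' (l : Γ) : (H' →L[ℂ] H')ˣ) : H' →L[ℂ] H') (J x) =
        J (((π l : (H →L[ℂ] H)ˣ) : H →L[ℂ] H) x)) ∧
      ∀ m M : ℝ, Inv π m M → Inv π' m M := by
  have hc0 : 0 ≤ c := (norm_nonneg _).trans (hc 1)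
  exact ⟨L2 (Γ ⧸ Λ) H, inferInstance, inferInstance, inferInstance,
    (rho Λ π c hc hc0).toHomUnits, emb H Λ, fun g => rho_norm Λ π c hc hc0 g,
    fun l x => inter Λ π c hc hc0 l x, fun m M h => inv_ind Λ π c hc hc0 m M h⟩

end Pool.Agent.TH695.J4661
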